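import Mathlib
import Pool.Agent.Q240.CD.Stm

/-!
# Project CD of helper240: job Ext (existence of the extremal polynomial)
-/

set_option linter.unusedSectionVars false

open Polynomial Filter Topology Finset MeasureTheory Pool.Agent.Q240.CD

namespace Pool.Agent.Q280.CD2

variable {g M : ℕ → ℝ} {n : ℕ}

theorem gpos (h : PM g M n) (j : ℕ) : 0 < g j :=
  lt_of_lt_of_le h.pos (h.mono.monotone (Nat.zero_le j))

/-- The sum is absolutely convergent in degree at most `2 n`. -/
theorem summable_eval (h : PM g M n) (p : ℝ[X]) (hp : p.natDegree ≤ 2 * n) :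
    Summable fun j => M j * p.eval (g j) := by
  refine Summable.of_norm_bounded
    (g := fun j => (∑ i ∈ range (p.natDegree + 1), |p.coeff i|) * (M j * (1 + g j) ^ (2 * n)))
    (h.sum.mul_left _) fun j => ?_
  have hg := gpos h j
  rw [Real.norm_eq_abs, abs_mul, abs_of_nonneg (h.nonneg j), eval_eq_sum_range]
  have h1 : |∑ i ∈ range (p.natDegree + 1), p.coeff i * g j ^ i| ≤
      (∑ i ∈ range (p.natDegree + 1), |p.coeff i|) * (1 + g j) ^ (2 * n) := by
    refine (Finset.abs_sum_le_sum_abs _ _).trans ?_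
    rw [Finset.sum_mul]
    refine Finset.sum_le_sum fun i hi => ?_
    rw [abs_mul]
    refine mul_le_mul_of_nonneg_left ?_ (abs_nonneg _)
    rw [abs_of_nonneg (pow_nonneg hg.le _)]
    have hi' : i ≤ 2 * n := by
      have := Finset.mem_range.1 hi
      omega
    calc g j ^ i ≤ (1 + g j) ^ i := pow_le_pow_left₀ hg.le (by linarith) _
      _ ≤ (1 + g j) ^ (2 * n) := pow_le_pow_right₀ (by linarith) hi'
  calc M j * |∑ i ∈ range (p.natDegree + 1), p.coeff i * g j ^ i|
      ≤ M j * ((∑ i ∈ range (p.natDegree + 1), |p.coeff i|) * (1 + g j) ^ (2 * n)) :=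
        mul_le_mul_of_nonneg_left h1 (h.nonneg j)
    _ = _ := by ring

theorem lam_add (h : PM g M n) (p q : ℝ[X]) (hp : p.natDegree ≤ 2 * n) (hq : q.natDegree ≤ 2 * n) :
    Lam g M (p + q) = Lam g M p + Lam g M q := by
  unfold Lam
  rw [← (summable_eval h p hp).tsum_add (summable_eval h q hq)]
  refine tsum_congr fun j => ?_
  rw [eval_add]
  ring

theorem lam_C_mul (c : ℝ) (p : ℝ[X]) : Lam g M (C c * p) = c * Lam g M p := by
  unfold Lam
  rw [← tsum_mul_left]
  refine tsum_congr fun j => ?_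
  rw [eval_mul, eval_C]
  ring

theorem lam_smul (c : ℝ) (p : ℝ[X]) : Lam g M (c • p) = c * Lam g M p := by
  rw [smul_eq_C_mul, lam_C_mul]

theorem lam_nonneg (h : PM g M n) (p : ℝ[X]) : 0 ≤ Lam g M (p * p) := by
  refine tsum_nonneg fun j => mul_nonneg (h.nonneg j) ?_
  rw [eval_mul]
  exact mul_self_nonneg _

theorem deg_mul {p q : ℝ[X]} (hp : p.natDegree ≤ n) (hq : q.natDegree ≤ n) :
    (p * q).natDegree ≤ 2 * n := natDegree_mul_le.trans (by omega)

/-- The form. -/
noncomputable def bil (h : PM g M n) : degreeLT ℝ (n + 1) →ₗ[ℝ] degreeLT ℝ (n + 1) →ₗ[ℝ] ℝ :=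
  LinearMap.mk₂ ℝ (fun q r => Lam g M ((q : ℝ[X]) * r))
    (fun p q r => by
      have hd : ∀ p : degreeLT ℝ (n + 1), (p : ℝ[X]).natDegree ≤ n := fun p =>
        natDegree_le_of_degree_le (Order.le_of_lt_succ (mem_degreeLT.1 p.2))
      rw [Submodule.coe_add, add_mul, lam_add h _ _ (deg_mul (hd p) (hd r)) (deg_mul (hd q) (hd r))])
    (fun c p r => by
      rw [Submodule.coe_smul, smul_mul_assoc, lam_smul, smul_eq_mul])
    (fun p q r => by
      have hd : ∀ p : degreeLT ℝ (n + 1), (p : ℝ[X]).natDegree ≤ n := fun p =>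
        natDegree_le_of_degree_le (Order.le_of_lt_succ (mem_degreeLT.1 p.2))
      rw [Submodule.coe_add, mul_add, lam_add h _ _ (deg_mul (hd p) (hd q)) (deg_mul (hd p) (hd r))])
    (fun c p r => by
      rw [Submodule.coe_smul, mul_smul_comm, lam_smul, smul_eq_mul])

/-- JOB Ext. -/
theorem ext : S_Ext := by
  intro g M n h t
  have hd : ∀ p : degreeLT ℝ (n + 1), (p : ℝ[X]).natDegree ≤ n := fun p =>
    natDegree_le_of_degree_le (Order.le_of_lt_succ (mem_degreeLT.1 p.2))
  have hm : ∀ p : ℝ[X], p.natDegree ≤ n → p ∈ degreeLT ℝ (n + 1) := fun p hp => by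
    rw [mem_degreeLT]
    exact lt_of_le_of_lt (natDegree_le_iff_degree_le.1 hp) (by exact_mod_cast Nat.lt_succ_self n)
  have _ : FiniteDimensional ℝ (degreeLT ℝ (n + 1)) :=
    LinearEquiv.finiteDimensional (degreeLTEquiv ℝ (n + 1)).symm
  have hinj : Function.Injective (bil h) := by
    rw [← LinearMap.ker_eq_bot, LinearMap.ker_eq_bot']
    intro q hq
    by_contra hne
    have h1 := h.dfn (q : ℝ[X]) (hd q) (fun h0 => hne (Subtype.ext h0))
    have h2 : bil h q q = 0 := by rw [hq]; rfl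
    exact absurd h2 h1.ne'
  have hsurj : Function.Surjective (bil h) :=
    (LinearMap.injective_iff_surjective_of_finrank_eq_finrank
      (Subspace.dual_finrank_eq (K := ℝ) (V := degreeLT ℝ (n + 1))).symm).1 hinj
  obtain ⟨k, hk⟩ := hsurj ((leval t).domRestrict (degreeLT ℝ (n + 1)))
  have hk' : ∀ r : ℝ[X], r.natDegree ≤ n → Lam g M ((k : ℝ[X]) * r) = r.eval t := fun r hr =>
    LinearMap.congr_fun hk ⟨r, hm r hr⟩
  have h1 : (k : ℝ[X]) ≠ 0 := by
    intro h0
    have h2 := hk' 1 (by simp)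
    rw [h0, zero_mul, eval_one] at h2
    simp [Lam] at h2
  have h2 : 0 < (k : ℝ[X]).eval t := by
    rw [← hk' k (hd k)]
    exact h.dfn _ (hd k) h1
  refine ⟨C (((k : ℝ[X]).eval t)⁻¹) * k, ?_, ?_, ?_⟩
  · exact (natDegree_C_mul_le _ _).trans (hd k)
  · rw [eval_mul, eval_C, inv_mul_cancel₀ h2.ne']
  · intro r hr hr0
    rw [mul_assoc, lam_C_mul, hk' r hr, hr0, mul_zero]

end Pool.Agent.Q280.CD2
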