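import Mathlib
import Pool.Agent.Q240.CD.Stm

/-!
# Project CD of helper240: job Q0low (the extremal polynomial at zero on the short interval)
-/

set_option linter.unusedSectionVars false

open Polynomial Filter Topology Finset MeasureTheory Pool.Agent.Q240.CD

namespace Pool.Agent.Q280.CD2

/-- The infinite product on the short interval. -/
theorem GG_pos {g : ℕ → ℝ} (hmono : StrictMono g) (h0 : 0 < g 0) (hs : Summable fun j => 1 / g j)
    {t : ℝ} (ht : 0 ≤ t) (ht1 : t < g 0) :
    0 < GG g t ∧ ∀ d, GG g t ≤ ∏ j ∈ range d, (1 - t / g j) := by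
  have hg : ∀ j, 0 < g j := fun j => lt_of_lt_of_le h0 (hmono.monotone (Nat.zero_le j))
  have hf : ∀ j, 0 < 1 - t / g j := by
    intro j
    have h1 : t < g j := lt_of_lt_of_le ht1 (hmono.monotone (Nat.zero_le j))
    have h2 : t / g j < 1 := (div_lt_one (hg j)).2 h1
    linarith
  have hf1 : ∀ j, 1 - t / g j ≤ 1 := by
    intro j
    have : 0 ≤ t / g j := div_nonneg ht (hg j).le
    linarith
  have hs1 : Summable fun j => -(t / g j) := by
    have h1 := (hs.mul_left t).neg
    refine h1.congr fun j => ?_
    simp [div_eq_mul_inv]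
  have hlog : Summable fun j => Real.log (1 - t / g j) := by
    have h1 := Real.summable_log_one_add_of_summable hs1
    exact h1
  have hm : Multipliable fun j => 1 - t / g j :=
    (Real.multipliable_one_add_of_summable hs1).congr fun j => rfl
  refine ⟨?_, fun d => ?_⟩
  · unfold GG
    rw [← Real.rexp_tsum_eq_tprod hf hlog]
    exact Real.exp_pos _
  · unfold GG
    refine le_of_tendsto (hm.hasProd.tendsto_prod_nat) ?_
    filter_upwards [eventually_ge_atTop d] with n hn
    exact Finset.prod_le_prod_of_subset_of_le_one (range_mono hn) (fun j _ => (hf j).le)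
      fun j _ _ => hf1 j

/-- JOB Q0low. -/
theorem q0low (hZ : S_Zer) : S_Q0low := by
  intro g M n h hs q0 hq0 t ht ht1
  have hg : ∀ j, 0 < g j := fun j => lt_of_lt_of_le h.pos (h.mono.monotone (Nat.zero_le j))
  obtain ⟨c, A, hA, hq, hc1, hc2, hc3⟩ := hZ g M n h 0 q0 (fun j => (hg j).ne') hq0
  have hc3 := hc3 rfl
  have hc : ∀ j ∈ range q0.natDegree, 0 < c j := fun j hj =>
    (hg j).trans (hc3 j (Finset.mem_range.1 hj))
  have heval : ∀ x : ℝ, q0.eval x = A * ∏ j ∈ range q0.natDegree, (x - c j) := by
    intro x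
    conv_lhs => rw [hq]
    rw [eval_mul, eval_C, eval_prod]
    simp
  have h1 : q0.eval t = ∏ j ∈ range q0.natDegree, (1 - t / c j) := by
    have h2 := hq0.2.1
    rw [heval] at h2
    have h3 : ∏ j ∈ range q0.natDegree, (t - c j) =
        (∏ j ∈ range q0.natDegree, (0 - c j)) * ∏ j ∈ range q0.natDegree, (1 - t / c j) := by
      rw [← Finset.prod_mul_distrib]
      refine Finset.prod_congr rfl fun j hj => ?_
      field_simp [(hc j hj).ne']
      ring
    rw [heval, h3, ← mul_assoc, h2, one_mul]
  obtain ⟨h2, h3⟩ := GG_pos h.mono h.pos hs ht ht1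
  refine ⟨h2, (h3 q0.natDegree).trans ?_, ?_⟩
  · rw [h1]
    refine Finset.prod_le_prod (fun j _ => ?_) fun j hj => ?_
    · have h4 : t < g j := lt_of_lt_of_le ht1 (h.mono.monotone (Nat.zero_le j))
      have h5 : t / g j < 1 := (div_lt_one (hg j)).2 h4
      linarith
    · have h4 := hc3 j (Finset.mem_range.1 hj)
      have h5 : t / c j ≤ t / g j := div_le_div_of_nonneg_left ht (hg j) h4.le
      linarith
  · rw [h1]
    refine Finset.prod_le_one (fun j hj => ?_) fun j hj => ?_
    · have h4 := hc3 j (Finset.mem_range.1 hj)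
      have h5 : t < c j := lt_trans (lt_of_lt_of_le ht1 (h.mono.monotone (Nat.zero_le j))) h4
      have h6 : t / c j < 1 := (div_lt_one (hc j hj)).2 h5
      linarith
    · have := div_nonneg ht (hc j hj).le
      linarith

end Pool.Agent.Q280.CD2
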