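import Mathlib
import Pool.Agent.Q240.CD.Stm
import Pool.Agent.Q280.CD2.Ext

/-!
# Project CD of helper240: job Del (the extremal values tend to zero)
-/

set_option linter.unusedSectionVars false

open Polynomial Filter Topology Finset MeasureTheory Pool.Agent.Q240.CD

namespace Pool.Agent.Q280.CD2

variable {g M : ℕ → ℝ} {n : ℕ}

/-- The extremal polynomial at zero is minimal. -/
theorem ex_min (h : PM g M n) {t : ℝ} {q0 Q : ℝ[X]} (h0 : Ex g M n t q0) (hQ : Q.natDegree ≤ n)
    (hQt : Q.eval t = 1) : Lam g M (q0 * q0) ≤ Lam g M (Q * Q) := by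
  obtain ⟨hd, he, ho⟩ := h0
  have hs : (Q - q0).natDegree ≤ n := (natDegree_sub_le _ _).trans (max_le hQ hd)
  have h1 := ho (Q - q0) hs (by rw [eval_sub, hQt, he, sub_self])
  have h2 : Q * Q = q0 * q0 + (C 2 * (q0 * (Q - q0)) + (Q - q0) * (Q - q0)) := by
    have : (C 2 : ℝ[X]) = 2 := rfl
    rw [this]
    ring
  rw [h2, lam_add h _ _ (deg_mul hd hd) ?_, lam_add h _ _ ?_ (deg_mul hs hs), lam_C_mul, h1,
    mul_zero, zero_add]
  · exact le_add_of_nonneg_right (lam_nonneg h _)
  · exact (natDegree_C_mul_le _ _).trans (deg_mul hd hs)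
  · exact (natDegree_add_le _ _).trans
      (max_le ((natDegree_C_mul_le _ _).trans (deg_mul hd hs)) (deg_mul hs hs))

/-- The test polynomial. -/
noncomputable def QD (g : ℕ → ℝ) (D : ℕ) : ℝ[X] := ∏ k ∈ range D, (1 - C (1 / g k) * X)

theorem QD_eval (g : ℕ → ℝ) (D : ℕ) (x : ℝ) :
    (QD g D).eval x = ∏ k ∈ range D, (1 - x / g k) := by
  unfold QD
  rw [eval_prod]
  refine Finset.prod_congr rfl fun k _ => ?_
  rw [eval_sub, eval_one, eval_mul, eval_C, eval_X]
  ring

theorem QD_deg (g : ℕ → ℝ) (D : ℕ) : (QD g D).natDegree ≤ D := by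
  unfold QD
  refine (natDegree_prod_le _ _).trans ?_
  refine (Finset.sum_le_card_nsmul _ _ 1 fun k _ => ?_).trans (by simp)
  change (1 - C (1 / g k) * X : ℝ[X]).natDegree ≤ 1
  refine (natDegree_sub_le _ _).trans (max_le (by simp) ?_)
  exact (natDegree_C_mul_le _ _).trans natDegree_X_le

theorem QD_bound (hmono : StrictMono g) (h0 : 0 < g 0) {D k : ℕ} (hk : D ≤ k) :
    |(QD g D).eval (g k)| ≤ mj g k (g k) := by
  have hg : ∀ j, 0 < g j := fun j => lt_of_lt_of_le h0 (hmono.monotone (Nat.zero_le j))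
  rw [QD_eval, Finset.abs_prod]
  unfold mj
  refine (Finset.prod_le_prod (g := fun j => max 1 (g k / g j)) (fun j _ => abs_nonneg _)
    fun j _ => ?_).trans ?_
  · have h1 : 0 ≤ g k / g j := (div_pos (hg k) (hg j)).le
    rw [abs_le]
    constructor
    · have := le_max_right 1 (g k / g j)
      linarith
    · have := le_max_left 1 (g k / g j)
      linarith
  · refine Finset.prod_le_prod_of_subset_of_one_le (range_mono hk) (fun j _ => ?_) fun j _ _ => ?_
    · exact zero_le_one.trans (le_max_left _ _)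
    · exact le_max_left _ _

/-- The limit measure: the sums are absolutely convergent. -/
theorem summable_mu {μ : ℕ → ℝ} (hg : ∀ j, 0 < g j) (hμ : ∀ j, 0 < μ j)
    (hs : ∀ d : ℕ, Summable fun j => μ j * (1 + g j) ^ d) (p : ℝ[X]) :
    Summable fun j => μ j * p.eval (g j) := by
  refine Summable.of_norm_bounded
    (g := fun j => (∑ i ∈ range (p.natDegree + 1), |p.coeff i|) * (μ j * (1 + g j) ^ p.natDegree))
    ((hs _).mul_left _) fun j => ?_
  have hg := hg j
  rw [Real.norm_eq_abs, abs_mul, abs_of_nonneg (hμ j).le, eval_eq_sum_range]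
  have h1 : |∑ i ∈ range (p.natDegree + 1), p.coeff i * g j ^ i| ≤
      (∑ i ∈ range (p.natDegree + 1), |p.coeff i|) * (1 + g j) ^ p.natDegree := by
    refine (Finset.abs_sum_le_sum_abs _ _).trans ?_
    rw [Finset.sum_mul]
    refine Finset.sum_le_sum fun i hi => ?_
    rw [abs_mul]
    refine mul_le_mul_of_nonneg_left ?_ (abs_nonneg _)
    rw [abs_of_nonneg (pow_nonneg hg.le _)]
    have hi' : i ≤ p.natDegree := by
      have := Finset.mem_range.1 hi
      omega
    calc g j ^ i ≤ (1 + g j) ^ i := pow_le_pow_left₀ hg.le (by linarith) _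
      _ ≤ (1 + g j) ^ p.natDegree := pow_le_pow_right₀ (by linarith) hi'
  calc μ j * |∑ i ∈ range (p.natDegree + 1), p.coeff i * g j ^ i|
      ≤ μ j * ((∑ i ∈ range (p.natDegree + 1), |p.coeff i|) * (1 + g j) ^ p.natDegree) :=
        mul_le_mul_of_nonneg_left h1 (hμ j).le
    _ = _ := by ring

/-- JOB Del. -/
theorem del : S_Del := by
  intro ι l g μ N M hF q0 hq0
  rcases l.eq_or_neBot with rfl | hl
  · exact tendsto_bot
  obtain ⟨i0, hi0⟩ := hF.pm.exists
  have hmono := hi0.mono
  have h0 := hi0.pos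
  have hg : ∀ j, 0 < g j := fun j => lt_of_lt_of_le h0 (hmono.monotone (Nat.zero_le j))
  have htail := tendsto_sum_nat_add fun k => μ k * mj g k (g k) ^ 2
  have hQμ : ∀ D : ℕ, Lam g μ (QD g D * QD g D) ≤
      ∑' k, μ (k + D) * mj g (k + D) (g (k + D)) ^ 2 := by
    intro D
    have hsum : Summable fun k => μ k * (QD g D * QD g D).eval (g k) :=
      summable_mu hg hF.mpos hF.msum _
    have hz : ∀ k ∈ range D, μ k * (QD g D * QD g D).eval (g k) = 0 := by
      intro k hk
      rw [eval_mul, QD_eval, Finset.prod_eq_zero hk, mul_zero, mul_zero]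
      rw [div_self (hg k).ne', sub_self]
    unfold Lam
    rw [← hsum.sum_add_tsum_nat_add D, Finset.sum_eq_zero hz, zero_add]
    refine ((summable_nat_add_iff D).2 hsum).tsum_le_tsum (fun k => ?_)
      ((summable_nat_add_iff D).2 hF.maj)
    refine mul_le_mul_of_nonneg_left ?_ (hF.mpos _).le
    rw [eval_mul, ← sq, ← sq_abs]
    exact pow_le_pow_left₀ (abs_nonneg _) (QD_bound hmono h0 (Nat.le_add_left D k)) 2
  rw [tendsto_order]
  constructor
  · intro a ha
    filter_upwards [hF.pm] with i hi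
    exact lt_of_lt_of_le ha (lam_nonneg hi _)
  · intro a ha
    obtain ⟨D, hD⟩ := ((tendsto_order.1 htail).2 a ha).exists
    have h1 : Lam g μ (QD g D * QD g D) < a := (hQμ D).trans_lt hD
    filter_upwards [hF.pm, hq0, (tendsto_order.1 (hF.limP (QD g D * QD g D))).2 a h1,
      hF.top.eventually_ge_atTop D] with i hi1 hi2 hi3 hi4
    refine (ex_min hi1 hi2 ((QD_deg g D).trans hi4) ?_).trans_lt hi3
    rw [QD_eval]
    simp

end Pool.Agent.Q280.CD2
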