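import Mathlib
import Pool.Agent.Q240.CD.Stm

/-!
# Project CD of helper240: job Dense (many atoms in every interval)
-/

set_option linter.unusedSectionVars false

open Polynomial Filter Topology Finset MeasureTheory Pool.Agent.Q240.CD

namespace Pool.Agent.Q280.CD2

/-- JOB Dense. -/
theorem dense (h1 : S_Con1) (h2 : S_Con2) : S_Dense := by
  intro ι l c hc Z v hv hlim s t N hst
  obtain ⟨R, hR1, hR2⟩ := h2 c hc ((s + t) / 2) ((t - s) / 2) (by linarith)
  set I : ℝ := ∫ x : ℝ, R.eval x ^ 2 * Real.exp (-(2 * c * x ^ 2)) with hI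
  set r : ℝ := (t - s) / 2 with hr
  have hr0 : 0 < r := by rw [hr]; linarith
  -- the mass in the interval
  have hA : ∀ᶠ i in l, I / 4 ≤ ∑ z ∈ (Z i).filter (fun z => s < z ∧ z < t), v i z * R.eval z ^ 2 := by
    have hJ := hlim (R * (X - C ((s + t) / 2)))
    have e1 : (∫ x : ℝ, (R * (X - C ((s + t) / 2))).eval x ^ 2 * Real.exp (-(2 * c * x ^ 2))) =
        ∫ x : ℝ, (R.eval x * (x - (s + t) / 2)) ^ 2 * Real.exp (-(2 * c * x ^ 2)) := by
      congr 1
      funext x
      rw [eval_mul, eval_sub, eval_X, eval_C]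
    rw [e1] at hJ
    have hK := (hlim R).sub (hJ.div_const (r ^ 2))
    have h3 : I / 4 < I - (∫ x : ℝ, (R.eval x * (x - (s + t) / 2)) ^ 2 *
        Real.exp (-(2 * c * x ^ 2))) / r ^ 2 := by
      have h4 : (∫ x : ℝ, (R.eval x * (x - (s + t) / 2)) ^ 2 *
        Real.exp (-(2 * c * x ^ 2))) / r ^ 2 ≤ I / 2 := by
        rw [div_le_iff₀ (by positivity)]
        calc _ ≤ _ := hR2
          _ = I / 2 * r ^ 2 := by ring
      linarith
    filter_upwards [(tendsto_order.1 hK).1 _ h3] with i hi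
    refine hi.le.trans ?_
    rw [Finset.sum_div, ← Finset.sum_sub_distrib, Finset.sum_filter]
    refine Finset.sum_le_sum fun z _ => ?_
    rw [eval_mul, eval_sub, eval_X, eval_C]
    have h5 : v i z * R.eval z ^ 2 - v i z * (R.eval z * (z - (s + t) / 2)) ^ 2 / r ^ 2 =
        v i z * R.eval z ^ 2 * (1 - (z - (s + t) / 2) ^ 2 / r ^ 2) := by ring
    rw [h5]
    have h6 : 0 ≤ v i z * R.eval z ^ 2 := mul_nonneg (hv i z) (sq_nonneg _)
    split_ifs with hz
    · have h7 : 0 ≤ (z - (s + t) / 2) ^ 2 / r ^ 2 := by positivity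
      nlinarith
    · refine mul_nonpos_of_nonneg_of_nonpos h6 ?_
      rw [sub_nonpos, le_div_iff₀ (by positivity), one_mul]
      have h8 : r ≤ |z - (s + t) / 2| := by
        rw [hr]
        by_contra hlt
        push Not at hlt
        rw [abs_lt] at hlt
        exact hz ⟨by linarith, by linarith⟩
      calc r ^ 2 ≤ |z - (s + t) / 2| ^ 2 := pow_le_pow_left₀ hr0.le h8 2
        _ = _ := sq_abs _
  -- a bound for the polynomial
  obtain ⟨K, hK⟩ : ∃ K : ℝ, ∀ x ∈ Set.Icc s t, R.eval x ^ 2 ≤ K := by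
    obtain ⟨K, hK⟩ := (isCompact_Icc (a := s) (b := t)).exists_bound_of_continuousOn
      (f := fun x => R.eval x ^ 2) (by fun_prop)
    exact ⟨K, fun x hx => (le_abs_self _).trans (hK x hx)⟩
  have hK0 : 0 < K + 1 := by
    have := hK s ⟨le_rfl, hst.le⟩
    nlinarith [sq_nonneg (R.eval s)]
  -- the atoms are small
  set ε : ℝ := I / (16 * (K + 1) * (N + 1)) with hε
  have hε0 : 0 < ε := by positivity
  choose T hT1 hT2 using fun x : ℝ => h1 c hc x ε hε0
  have hB : ∀ᶠ i in l, ∀ z, s < z → z < t → z ∈ Z i → v i z ≤ 4 * ε := by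
    obtain ⟨F, hF⟩ := (isCompact_Icc (a := s) (b := t)).elim_finite_subcover
      (fun x : ℝ => {y : ℝ | 1 / 2 < (T x).eval y ^ 2})
      (fun x => isOpen_lt continuous_const (by fun_prop))
      (fun x _ => Set.mem_iUnion.2 ⟨x, by simp only [Set.mem_ofPred_eq, hT1]; norm_num⟩)
    have h3 : ∀ x ∈ F, ∀ᶠ i in l, ∑ z ∈ Z i, v i z * (T x).eval z ^ 2 < 2 * ε := by
      intro x _
      exact (tendsto_order.1 (hlim (T x))).2 _ (by linarith [hT2 x])
    filter_upwards [(Filter.eventually_all_finset F).2 h3] with i hi z hz1 hz2 hz3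
    obtain ⟨x, hx⟩ := Set.mem_iUnion.1 (hF (show z ∈ Set.Icc s t from ⟨hz1.le, hz2.le⟩))
    obtain ⟨hxF, hx⟩ := Set.mem_iUnion.1 hx
    have h4 : v i z * (T x).eval z ^ 2 ≤ 2 * ε := by
      refine le_trans ?_ (hi x hxF).le
      exact Finset.single_le_sum (f := fun z => v i z * (T x).eval z ^ 2)
        (fun y _ => mul_nonneg (hv i y) (sq_nonneg _)) hz3
    have h5 : (1 / 2 : ℝ) < (T x).eval z ^ 2 := hx
    have h6 := hv i z
    nlinarith
  filter_upwards [hA, hB] with i hi1 hi2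
  by_contra hlt
  push Not at hlt
  have h3 : ∑ z ∈ (Z i).filter (fun z => s < z ∧ z < t), v i z * R.eval z ^ 2 ≤
      ∑ z ∈ (Z i).filter (fun z => s < z ∧ z < t), 4 * ε * (K + 1) := by
    refine Finset.sum_le_sum fun z hz => ?_
    obtain ⟨hz1, hz2, hz3⟩ := Finset.mem_filter.1 hz
    refine mul_le_mul (hi2 z hz2 hz3 hz1) ?_ (sq_nonneg _) (by positivity)
    linarith [hK z ⟨hz2.le, hz3.le⟩]
  rw [Finset.sum_const, nsmul_eq_mul] at h3
  have h4 : (((Z i).filter (fun z => s < z ∧ z < t)).card : ℝ) ≤ N := by exact_mod_cast hlt.le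
  have h5 : (((Z i).filter (fun z => s < z ∧ z < t)).card : ℝ) * (4 * ε * (K + 1)) ≤
      N * (4 * ε * (K + 1)) := mul_le_mul_of_nonneg_right h4 (by positivity)
  have h6 : (N + 1 : ℝ) * (4 * ε * (K + 1)) = I / 4 := by
    rw [hε]
    field_simp
    ring
  have h7 : 0 < 4 * ε * (K + 1) := by positivity
  nlinarith

end Pool.Agent.Q280.CD2
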